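import Pool.Agent.H738R3.Rel

set_option autoImplicit false

namespace Pool.Agent.H738R3

open Pool.Agent.Results.MP_a374b6_co.TwoComponents

variable {V : Type*} {G : SimpleGraph V}

lemma all_but {n : ℕ} (hn : n ≤ 3) (p : Fin n → Prop) (y : Fin n) (hy : ¬ p y)
    (h : ∀ z, ∃ t, t ≠ z ∧ p t) : ∀ t, t ≠ y → p t := by
  intro t ht
  by_contra hp
  obtain ⟨a, ha, hpa⟩ := h y
  obtain ⟨b, hb, hpb⟩ := h a
  have h1 : b ≠ y := fun e => hy (e ▸ hpb)
  have h2 : t ≠ a := fun e => hp (e ▸ hpa)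
  have h3 : t ≠ b := fun e => hp (e ▸ hpb)
  have := a.isLt
  have := b.isLt
  have := t.isLt
  have := y.isLt
  rw [ne_eq, Fin.ext_iff] at ht ha hb h1 h2 h3
  omega

section lists

variable {ι : Type*} [DecidableEq ι] {M : ι → Set V} {c : ι → ℕ} {K : (i : ι) → Fin (c i) → Set V}

omit [DecidableEq ι] in
lemma disj_out (hdisj : ∀ i j, i ≠ j → Disjoint (M i) (M j)) {W : Finset ι} {x : ι}
    (hx : x ∉ W) : Disjoint (M x) (⋃ i ∈ W, M i) := by
  rw [Set.disjoint_iUnion₂_right]
  intro y hy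
  exact hdisj x y (fun e => hx (e ▸ hy))

omit [DecidableEq ι] in
lemma disj_two (hdisj : ∀ i j, i ≠ j → Disjoint (M i) (M j)) {W U : Finset ι}
    (hx : ∀ x ∈ W, x ∉ U) {X Y : Set V} (hX : X ⊆ ⋃ i ∈ W, M i) (hY : Y ⊆ ⋃ i ∈ U, M i) :
    Disjoint X Y := by
  apply Disjoint.mono hX hY
  rw [Set.disjoint_iUnion₂_left]
  intro x hxW
  exact disj_out hdisj (hx x hxW)

lemma hub_list (hdisj : ∀ i j, i ≠ j → Disjoint (M i) (M j))
    (hconn : ∀ i j, i ≠ j → (G.induce (M i ∪ M j)).Connected) (P : ι → Set V) (m : ℕ) :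
    ∀ (W : Finset ι) (_ : W.card = m) (_ : ∀ i ∈ W, c i ≤ 3 ∧ Cp G (M i) (c i) (K i))
    (_ : ∀ k ∈ W, ∃ h : Fin (c k), P k = K k h ∧
      ∀ j ∈ W, j ≠ k → ∀ y : Fin (c j), ∃ t, t ≠ y ∧ Touch G (K k h) (K j t)),
    ∃ L : List (Set V), L.length = m ∧ L.Pairwise (fun X Y => Disjoint X Y ∧ Touch G X Y) ∧
      ∀ X ∈ L, X ⊆ (⋃ i ∈ W, M i) ∧ (G.induce X).Connected ∧ ∃ k ∈ W, P k ⊆ X := by
  classical
  induction m using Nat.strong_induction_on with
  | _ m ih =>
  intro W hW hK hP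
  have hsub : ∀ x ∈ W, M x ⊆ ⋃ i ∈ W, M i := fun x hx =>
    Set.subset_biUnion_of_mem (u := M) (Finset.mem_coe.mpr hx)
  by_cases hall : ∀ k ∈ W, ∀ l ∈ W, k ≠ l → Touch G (P k) (P l)
  · refine ⟨W.toList.map P, ?_, ?_, ?_⟩
    · simp only [List.length_map, Finset.length_toList, hW]
    · rw [List.pairwise_map]
      have hnd := W.nodup_toList
      refine List.Pairwise.imp_of_mem ?_ hnd
      intro a b ha hb hab
      rw [Finset.mem_toList] at ha hb
      refine ⟨?_, hall a ha b hb hab⟩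
      obtain ⟨h, hh, -⟩ := hP a ha
      obtain ⟨h', hh', -⟩ := hP b hb
      rw [hh, hh']
      exact (hdisj a b hab).mono ((hK a ha).2.sub h) ((hK b hb).2.sub h')
    · intro X hX
      simp only [List.mem_map, Finset.mem_toList] at hX
      obtain ⟨k, hk, rfl⟩ := hX
      obtain ⟨h, hh, -⟩ := hP k hk
      refine ⟨?_, ?_, k, hk, Set.Subset.refl _⟩
      · rw [hh]
        exact ((hK k hk).2.sub h).trans (hsub k hk)
      · rw [hh]
        exact (hK k hk).2.conn h
  · push Not at hall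
    obtain ⟨k, hk, l, hl, hkl, hnt⟩ := hall
    have hl' : l ∈ W.erase k := Finset.mem_erase.mpr ⟨hkl.symm, hl⟩
    have hmem : ∀ x, x ∈ (W.erase k).erase l ↔ x ∈ W ∧ x ≠ k ∧ x ≠ l := by
      intro x
      simp only [Finset.mem_erase]
      tauto
    have hm2 : 2 ≤ m := by
      have := Finset.one_lt_card.mpr ⟨k, hk, l, hl, hkl⟩
      omega
    obtain ⟨L, hL1, hL2, hL3⟩ := ih (m - 2) (by omega) ((W.erase k).erase l) (by
      rw [Finset.card_erase_of_mem hl', Finset.card_erase_of_mem hk, hW]; omega)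
      (fun i hi => hK i ((hmem i).mp hi).1)
      (fun i hi => by
        obtain ⟨h, hh, hh'⟩ := hP i ((hmem i).mp hi).1
        exact ⟨h, hh, fun j hj => hh' j ((hmem j).mp hj).1⟩)
    obtain ⟨hk', hPk, hubk⟩ := hP k hk
    obtain ⟨hl'', hPl, hubl⟩ := hP l hl
    rw [hPk, hPl] at hnt
    have t1 : ∀ t, t ≠ hl'' → Touch G (K k hk') (K l t) :=
      all_but (hK l hl).1 _ hl'' hnt (hubk l hl hkl.symm)
    have t2 : ∀ t, t ≠ hk' → Touch G (K l hl'') (K k t) :=
      all_but (hK k hk).1 _ hk' (fun t => hnt t.symm) (hubl k hk hkl)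
    obtain ⟨c1, c2, d12, t12, s1, s2⟩ := pair_sets (hK k hk).2 (hK l hl).2 (hdisj k l hkl)
      (hconn k l hkl).preconnected hk' hl'' t1 t2
    have hkW : k ∉ (W.erase k).erase l := fun h => ((hmem k).mp h).2.1 rfl
    have hlW : l ∉ (W.erase k).erase l := fun h => ((hmem l).mp h).2.2 rfl
    refine ⟨(K k hk' ∪ (M l \ K l hl'')) :: (K l hl'' ∪ (M k \ K k hk')) :: L, ?_, ?_, ?_⟩
    · simp only [List.length_cons]
      omega
    · rw [List.pairwise_cons, List.pairwise_cons]
      refine ⟨?_, ?_, hL2⟩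
      · intro X hX
        rw [List.mem_cons] at hX
        rcases hX with rfl | hX
        · exact ⟨d12, t12⟩
        · obtain ⟨hX1, hX2, k', hk'W, hPX⟩ := hL3 X hX
          constructor
          · apply Disjoint.mono s1 hX1
            rw [Set.disjoint_union_left]
            exact ⟨disj_out hdisj hkW, disj_out hdisj hlW⟩
          · obtain ⟨h', hh', hub'⟩ := hP k' ((hmem k').mp hk'W).1
            obtain ⟨t, ht, htt⟩ := hub' l hl (Ne.symm ((hmem k').mp hk'W).2.2) hl''
            rw [hh'] at hPX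
            exact htt.symm.mono (((hK l hl).2.sub_diff ht).trans Set.subset_union_right) hPX
      · intro X hX
        obtain ⟨hX1, hX2, k', hk'W, hPX⟩ := hL3 X hX
        constructor
        · apply Disjoint.mono s2 hX1
          rw [Set.disjoint_union_left]
          exact ⟨disj_out hdisj hkW, disj_out hdisj hlW⟩
        · obtain ⟨h', hh', hub'⟩ := hP k' ((hmem k').mp hk'W).1
          obtain ⟨t, ht, htt⟩ := hub' k hk (Ne.symm ((hmem k').mp hk'W).2.1) hk'
          rw [hh'] at hPX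
          exact htt.symm.mono (((hK k hk).2.sub_diff ht).trans Set.subset_union_right) hPX
    · intro X hX
      rw [List.mem_cons, List.mem_cons] at hX
      rcases hX with rfl | rfl | hX
      · refine ⟨s1.trans (Set.union_subset (hsub k hk) (hsub l hl)), c1, k, hk, ?_⟩
        rw [hPk]
        exact Set.subset_union_left
      · refine ⟨s2.trans (Set.union_subset (hsub k hk) (hsub l hl)), c2, l, hl, ?_⟩
        rw [hPl]
        exact Set.subset_union_left
      · obtain ⟨hX1, hX2, k', hk'W, hPX⟩ := hL3 X hX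
        refine ⟨hX1.trans ?_, hX2, k', ((hmem k').mp hk'W).1, hPX⟩
        intro v hv
        simp only [Set.mem_iUnion] at hv ⊢
        obtain ⟨y, hy, hvy⟩ := hv
        exact ⟨y, ((hmem y).mp hy).1, hvy⟩

lemma tlist (hdisj : ∀ i j, i ≠ j → Disjoint (M i) (M j))
    (hconn : ∀ i j, i ≠ j → (G.induce (M i ∪ M j)).Connected) (m : ℕ) :
    ∀ (W : Finset ι) (_ : W.card = m) (_ : ∀ i ∈ W, Cp G (M i) (c i) (K i))
    (_ : ∀ k ∈ W, ∀ j ∈ W, j ≠ k → c j = 3 ∧
      ∀ h : Fin (c k), ∃ t : Fin (c j), ¬ Touch G (K k h) (K j t)),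
    ∃ L : List (Set V), m ≤ L.length + 1 ∧ L.Pairwise (fun X Y => Disjoint X Y ∧ Touch G X Y) ∧
      ∀ X ∈ L, X ⊆ (⋃ i ∈ W, M i) ∧ (G.induce X).Connected ∧
        ∃ l ∈ W, ∃ y t : Fin (c l), t ≠ y ∧ M l \ K l y ⊆ X := by
  classical
  induction m using Nat.strong_induction_on with
  | _ m ih =>
  intro W hW hK hT
  have hsub : ∀ x ∈ W, M x ⊆ ⋃ i ∈ W, M i := fun x hx =>
    Set.subset_biUnion_of_mem (u := M) (Finset.mem_coe.mpr hx)
  by_cases hm : m ≤ 1
  · exact ⟨[], by simp; omega, List.Pairwise.nil, by simp⟩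
  · obtain ⟨k, hk, l, hl, hkl⟩ := Finset.one_lt_card.mp (by omega : 1 < W.card)
    have hl' : l ∈ W.erase k := Finset.mem_erase.mpr ⟨hkl.symm, hl⟩
    have hmem : ∀ x, x ∈ (W.erase k).erase l ↔ x ∈ W ∧ x ≠ k ∧ x ≠ l := by
      intro x
      simp only [Finset.mem_erase]
      tauto
    obtain ⟨L, hL1, hL2, hL3⟩ := ih (m - 2) (by omega) ((W.erase k).erase l) (by
      rw [Finset.card_erase_of_mem hl', Finset.card_erase_of_mem hk, hW]; omega)
      (fun i hi => hK i ((hmem i).mp hi).1)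
      (fun i hi j hj => hT i ((hmem i).mp hi).1 j ((hmem j).mp hj).1)
    have rel : ∀ i ∈ W, ∀ j ∈ W, i ≠ j →
        (∃ a x, (∀ t, t ≠ x → Touch G (K i a) (K j t)) ∧ ∀ s, s ≠ a → Touch G (K j x) (K i s)) ∧
        ∀ a x, ∃ s, s ≠ a ∧ ∃ t, t ≠ x ∧ Touch G (K i s) (K j t) := by
      intro i hi j hj hij
      exact pair_rel (hK i hi) (hK j hj) (hdisj i j hij) (hconn i j hij).preconnected
        (hT j hj i hi hij).1 (hT i hi j hj hij.symm).1 (hT i hi j hj hij.symm).2
        (hT j hj i hi hij).2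
    obtain ⟨a, x, t1, t2⟩ := (rel k hk l hl hkl).1
    obtain ⟨c1, c2, d12, t12, s1, s2⟩ := pair_sets (hK k hk) (hK l hl) (hdisj k l hkl)
      (hconn k l hkl).preconnected a x t1 t2
    have hkW : k ∉ (W.erase k).erase l := fun h => ((hmem k).mp h).2.1 rfl
    have hlW : l ∉ (W.erase k).erase l := fun h => ((hmem l).mp h).2.2 rfl
    refine ⟨(K k a ∪ (M l \ K l x)) :: (K l x ∪ (M k \ K k a)) :: L, ?_, ?_, ?_⟩
    · simp only [List.length_cons]
      omega
    · rw [List.pairwise_cons, List.pairwise_cons]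
      refine ⟨?_, ?_, hL2⟩
      · intro X hX
        rw [List.mem_cons] at hX
        rcases hX with rfl | hX
        · exact ⟨d12, t12⟩
        · obtain ⟨hX1, hX2, k', hk'W, y', -, -, hPX⟩ := hL3 X hX
          constructor
          · apply Disjoint.mono s1 hX1
            rw [Set.disjoint_union_left]
            exact ⟨disj_out hdisj hkW, disj_out hdisj hlW⟩
          · have hk'2 := (hmem k').mp hk'W
            obtain ⟨s, hs, t, ht, htt⟩ := (rel l hl k' hk'2.1 hk'2.2.2.symm).2 x y'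
            exact htt.mono (((hK l hl).sub_diff hs).trans Set.subset_union_right)
              (((hK k' hk'2.1).sub_diff ht).trans hPX)
      · intro X hX
        obtain ⟨hX1, hX2, k', hk'W, y', -, -, hPX⟩ := hL3 X hX
        constructor
        · apply Disjoint.mono s2 hX1
          rw [Set.disjoint_union_left]
          exact ⟨disj_out hdisj hkW, disj_out hdisj hlW⟩
        · have hk'2 := (hmem k').mp hk'W
          obtain ⟨s, hs, t, ht, htt⟩ := (rel k hk k' hk'2.1 hk'2.2.1.symm).2 a y'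
          exact htt.mono (((hK k hk).sub_diff hs).trans Set.subset_union_right)
            (((hK k' hk'2.1).sub_diff ht).trans hPX)
    · have two : ∀ n : ℕ, n = 3 → ∀ y : Fin n, ∃ t : Fin n, t ≠ y := by
        rintro n rfl y
        exact exists_ne y
      intro X hX
      rw [List.mem_cons, List.mem_cons] at hX
      rcases hX with rfl | rfl | hX
      · refine ⟨s1.trans (Set.union_subset (hsub k hk) (hsub l hl)), c1, l, hl, x, ?_⟩
        obtain ⟨t, ht⟩ := two _ (hT k hk l hl hkl.symm).1 x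
        exact ⟨t, ht, Set.subset_union_right⟩
      · refine ⟨s2.trans (Set.union_subset (hsub k hk) (hsub l hl)), c2, k, hk, a, ?_⟩
        obtain ⟨t, ht⟩ := two _ (hT l hl k hk hkl).1 a
        exact ⟨t, ht, Set.subset_union_right⟩
      · obtain ⟨hX1, hX2, k', hk'W, hPX⟩ := hL3 X hX
        refine ⟨hX1.trans ?_, hX2, k', ((hmem k').mp hk'W).1, hPX⟩
        intro v hv
        simp only [Set.mem_iUnion] at hv ⊢
        obtain ⟨y, hy, hvy⟩ := hv
        exact ⟨y, ((hmem y).mp hy).1, hvy⟩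

end lists

end Pool.Agent.H738R3
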