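import Pool.Agent.H738R3.Pieces

set_option autoImplicit false

namespace Pool.Agent.H738R3

open Pool.Agent.Results.MP_a374b6_co.TwoComponents

variable {V : Type*} {G : SimpleGraph V}

lemma Cp.sub_diff {M : Set V} {n : ℕ} {K : Fin n → Set V} (h : Cp G M n K) {t y : Fin n}
    (hty : t ≠ y) : K t ⊆ M \ K y := fun _ hv => ⟨h.sub t hv, fun hv' => hty (h.uniq hv hv')⟩

lemma star_conn {N X : Set V} {m : ℕ} {L : Fin m → Set V} (hL : Cp G N m L)
    (hX : (G.induce X).Connected) (y : Fin m) (hh : ∀ t, t ≠ y → Touch G X (L t)) :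
    (G.induce (X ∪ (N \ L y))).Connected := by
  obtain ⟨u, hu⟩ := Connected.nonempty' hX
  apply SimpleGraph.induce_connected_of_patches u (Or.inl hu)
  intro v hv
  rcases hv with hv | hv
  · exact ⟨X, Set.subset_union_left, hu, hv, hX.preconnected _ _⟩
  · obtain ⟨t, ht⟩ := hL.mem hv.1
    have hty : t ≠ y := fun e => hv.2 (e ▸ ht)
    refine ⟨X ∪ L t, ?_, Or.inl hu, Or.inr ht,
      (conn_union hX.preconnected (hL.conn t).preconnected (hh t hty)).preconnected _ _⟩
    exact Set.union_subset_union_right _ (hL.sub_diff hty)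

lemma pair_sets {M N : Set V} {n m : ℕ} {K : Fin n → Set V} {L : Fin m → Set V}
    (hK : Cp G M n K) (hL : Cp G N m L) (hd : Disjoint M N)
    (hc : (G.induce (M ∪ N)).Preconnected) (a : Fin n) (x : Fin m)
    (h1 : ∀ t, t ≠ x → Touch G (K a) (L t)) (h2 : ∀ s, s ≠ a → Touch G (L x) (K s)) :
    (G.induce (K a ∪ (N \ L x))).Connected ∧ (G.induce (L x ∪ (M \ K a))).Connected ∧
      Disjoint (K a ∪ (N \ L x)) (L x ∪ (M \ K a)) ∧
      Touch G (K a ∪ (N \ L x)) (L x ∪ (M \ K a)) ∧
      K a ∪ (N \ L x) ⊆ M ∪ N ∧ L x ∪ (M \ K a) ⊆ M ∪ N := by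
  have hdis : Disjoint (K a ∪ (N \ L x)) (L x ∪ (M \ K a)) := by
    rw [Set.disjoint_left]
    rintro v (hv | hv) (hv' | hv')
    · exact Set.disjoint_left.mp hd (hK.sub a hv) (hL.sub x hv')
    · exact hv'.2 hv
    · exact hv.2 hv'
    · exact Set.disjoint_left.mp hd hv'.1 hv.1
  refine ⟨star_conn hL (hK.conn a) x h1, star_conn hK (hL.conn x) a h2, hdis, ?_, ?_, ?_⟩
  · apply cut _ ((hK.ne a).mono Set.subset_union_left) ((hL.ne x).mono Set.subset_union_left) hdis
    have e : (K a ∪ (N \ L x)) ∪ (L x ∪ (M \ K a)) = M ∪ N := by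
      ext v
      have h3 := @Cp.sub V G M n K hK a v
      have h4 := @Cp.sub V G N m L hL x v
      simp only [Set.mem_union, Set.mem_diff]
      tauto
    rw [e]
    exact hc
  · exact Set.union_subset ((hK.sub a).trans Set.subset_union_left)
      (Set.diff_subset.trans Set.subset_union_right)
  · exact Set.union_subset ((hL.sub x).trans Set.subset_union_right)
      (Set.diff_subset.trans Set.subset_union_left)

/-- connected bipartite relations on three and three points without a full row or column -/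
lemma rel3_bool : ∀ r00 r01 r02 r10 r11 r12 r20 r21 r22 : Bool,
    (∀ s0 s1 s2 t0 t1 t2 : Bool, (s0 || s1 || s2 || t0 || t1 || t2) = true →
      (s0 && s1 && s2 && t0 && t1 && t2) = false →
      ((r00 && (s0 != t0)) || (r01 && (s0 != t1)) || (r02 && (s0 != t2)) ||
       (r10 && (s1 != t0)) || (r11 && (s1 != t1)) || (r12 && (s1 != t2)) ||
       (r20 && (s2 != t0)) || (r21 && (s2 != t1)) || (r22 && (s2 != t2))) = true) →
    (r00 && r01 && r02) = false → (r10 && r11 && r12) = false → (r20 && r21 && r22) = false →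
    (r00 && r10 && r20) = false → (r01 && r11 && r21) = false → (r02 && r12 && r22) = false →
    ((r01 && r02 && r10 && r20) || (r00 && r02 && r11 && r21) || (r00 && r01 && r12 && r22) ||
     (r11 && r12 && r00 && r20) || (r10 && r12 && r01 && r21) || (r10 && r11 && r02 && r22) ||
     (r21 && r22 && r00 && r10) || (r20 && r22 && r01 && r11) || (r20 && r21 && r02 && r12)) = true ∧
    ((r11 || r12 || r21 || r22) && (r10 || r12 || r20 || r22) && (r10 || r11 || r20 || r21) &&
     (r01 || r02 || r21 || r22) && (r00 || r02 || r20 || r22) && (r00 || r01 || r20 || r21) &&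
     (r01 || r02 || r11 || r12) && (r00 || r02 || r10 || r12) && (r00 || r01 || r10 || r11))
      = true := by
  decide +kernel

end Pool.Agent.H738R3
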