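import Pool.Agent.Results.MP_a374b6_co.TwoComponents

set_option autoImplicit false

namespace Pool.Agent.H738R3

open Pool.Agent.Results.MP_a374b6_co.TwoComponents

variable {V : Type*} {G : SimpleGraph V}

/-- A decomposition of a set into connected pieces without edges between different pieces. -/
structure Cp (G : SimpleGraph V) (M : Set V) (n : ℕ) (K : Fin n → Set V) : Prop where
  conn : ∀ t, (G.induce (K t)).Connected
  disj : ∀ s t, s ≠ t → Disjoint (K s) (K t)
  nt : ∀ s t, s ≠ t → ¬ Touch G (K s) (K t)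
  eq : M = ⋃ t, K t

lemma Cp.sub {M : Set V} {n : ℕ} {K : Fin n → Set V} (h : Cp G M n K) (t : Fin n) : K t ⊆ M := by
  rw [h.eq]; exact Set.subset_iUnion K t

lemma Cp.ne {M : Set V} {n : ℕ} {K : Fin n → Set V} (h : Cp G M n K) (t : Fin n) :
    (K t).Nonempty := Connected.nonempty' (h.conn t)

lemma Cp.mem {M : Set V} {n : ℕ} {K : Fin n → Set V} (h : Cp G M n K) {v : V} (hv : v ∈ M) :
    ∃ t, v ∈ K t := by
  rw [h.eq] at hv; exact Set.mem_iUnion.mp hv

lemma Cp.uniq {M : Set V} {n : ℕ} {K : Fin n → Set V} (h : Cp G M n K) {v : V} {s t : Fin n}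
    (hs : v ∈ K s) (ht : v ∈ K t) : s = t := by
  by_contra hst
  exact Set.disjoint_left.mp (h.disj s t hst) hs ht

/-- normalisation of a list of preconnected sets -/
lemma exists_list (L : List (Set V)) (hL : ∀ X ∈ L, (G.induce X).Preconnected) :
    ∃ L' : List (Set V), L'.length ≤ L.length ∧ (∀ X ∈ L', (G.induce X).Connected) ∧
      L'.Pairwise (fun X Y => Disjoint X Y ∧ ¬ Touch G X Y) ∧
      (⋃ X ∈ L', X) = ⋃ X ∈ L, X := by
  classical
  induction L with
  | nil => exact ⟨[], le_refl _, by simp, List.Pairwise.nil, rfl⟩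
  | cons X L ih =>
    obtain ⟨L', h1, h2, h3, h4⟩ := ih (fun Y hY => hL Y (List.mem_cons_of_mem _ hY))
    have hX := hL X List.mem_cons_self
    rcases Set.eq_empty_or_nonempty X with hX0 | hXne
    · refine ⟨L', h1.trans (by simp), h2, h3, ?_⟩
      rw [h4]
      ext v
      simp [hX0]
    obtain ⟨u, hu⟩ := hXne
    set far := L'.filter (fun Y => decide (Disjoint X Y ∧ ¬ Touch G X Y)) with hfar
    set near := L'.filter (fun Y => decide (¬ (Disjoint X Y ∧ ¬ Touch G X Y))) with hnear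
    have hsym : ∀ Y ∈ L', ∀ Z ∈ L', Y ≠ Z → Disjoint Y Z ∧ ¬ Touch G Y Z := by
      intro Y hY Z hZ hYZ
      have hs : Std.Symm (fun X Y : Set V => Disjoint X Y ∧ ¬ Touch G X Y) :=
        ⟨fun A B hAB => ⟨hAB.1.symm, fun t => hAB.2 t.symm⟩⟩
      exact h3.forall hY hZ hYZ
    refine ⟨(X ∪ ⋃ Y ∈ near, Y) :: far, ?_, ?_, ?_, ?_⟩
    · simp only [List.length_cons]
      have : far.length ≤ L'.length := List.length_filter_le _ _
      omega
    · intro Z hZ
      rw [List.mem_cons] at hZ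
      rcases hZ with rfl | hZ
      · apply SimpleGraph.induce_connected_of_patches u (Or.inl hu)
        intro v hv
        rcases hv with hv | hv
        · exact ⟨X, Set.subset_union_left, hu, hv, hX _ _⟩
        · simp only [Set.mem_iUnion] at hv
          obtain ⟨Y, hY, hvY⟩ := hv
          have hY' := hY
          rw [hnear, List.mem_filter] at hY'
          have hc : (G.induce (X ∪ Y)).Connected := by
            have h5 := of_decide_eq_true hY'.2
            by_cases hd : Disjoint X Y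
            · have ht : Touch G X Y := by
                by_contra ht
                exact h5 ⟨hd, ht⟩
              exact conn_union hX (h2 Y hY'.1).preconnected ht
            · rw [Set.not_disjoint_iff_nonempty_inter] at hd
              exact SimpleGraph.induce_union_connected hX (h2 Y hY'.1).preconnected hd
          refine ⟨X ∪ Y, ?_, Or.inl hu, Or.inr hvY, hc.preconnected _ _⟩
          apply Set.union_subset_union_right
          intro w hw
          simp only [Set.mem_iUnion]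
          exact ⟨Y, hY, hw⟩
      · rw [hfar, List.mem_filter] at hZ
        exact h2 Z hZ.1
    · rw [List.pairwise_cons]
      refine ⟨?_, h3.sublist List.filter_sublist⟩
      intro Z hZ
      rw [hfar, List.mem_filter] at hZ
      have h5 := of_decide_eq_true hZ.2
      have hnz : ∀ Y ∈ near, Disjoint Y Z ∧ ¬ Touch G Y Z := by
        intro Y hY
        rw [hnear, List.mem_filter] at hY
        apply hsym Y hY.1 Z hZ.1
        rintro rfl
        exact (of_decide_eq_true hY.2) h5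
      constructor
      · rw [Set.disjoint_union_left]
        refine ⟨h5.1, ?_⟩
        rw [Set.disjoint_iUnion₂_left]
        exact fun Y hY => (hnz Y hY).1
      · rintro ⟨x, hx, y, hy, hxy⟩
        rcases hx with hx | hx
        · exact h5.2 ⟨x, hx, y, hy, hxy⟩
        · simp only [Set.mem_iUnion] at hx
          obtain ⟨Y, hY, hxY⟩ := hx
          exact (hnz Y hY).2 ⟨x, hxY, y, hy, hxy⟩
    · ext v
      have h6 : (v ∈ ⋃ X ∈ L', X) ↔ v ∈ ⋃ X ∈ L, X := by rw [h4]
      simp only [Set.mem_iUnion, exists_prop, List.mem_cons, Set.mem_union] at h6 ⊢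
      constructor
      · rintro ⟨Z, rfl | hZ, hv⟩
        · rcases hv with hv | hv
          · exact ⟨X, Or.inl rfl, hv⟩
          · simp only [Set.mem_iUnion, exists_prop] at hv
            obtain ⟨Y, hY, hvY⟩ := hv
            rw [hnear, List.mem_filter] at hY
            obtain ⟨W, hW, hvW⟩ := h6.mp ⟨Y, hY.1, hvY⟩
            exact ⟨W, Or.inr hW, hvW⟩
        · rw [hfar, List.mem_filter] at hZ
          obtain ⟨W, hW, hvW⟩ := h6.mp ⟨Z, hZ.1, hv⟩
          exact ⟨W, Or.inr hW, hvW⟩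
      · rintro ⟨W, rfl | hW, hvW⟩
        · exact ⟨_, Or.inl rfl, Or.inl hvW⟩
        · obtain ⟨Y, hY, hvY⟩ := h6.mpr ⟨W, hW, hvW⟩
          by_cases h7 : Disjoint X Y ∧ ¬ Touch G X Y
          · refine ⟨Y, Or.inr ?_, hvY⟩
            rw [hfar, List.mem_filter]
            exact ⟨hY, decide_eq_true h7⟩
          · refine ⟨_, Or.inl rfl, Or.inr ?_⟩
            simp only [Set.mem_iUnion, exists_prop]
            refine ⟨Y, ?_, hvY⟩
            rw [hnear, List.mem_filter]
            exact ⟨hY, decide_eq_true h7⟩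

lemma exists_cp {M A B C : Set V} (hM : M = A ∪ B ∪ C) (hA : (G.induce A).Preconnected)
    (hB : (G.induce B).Preconnected) (hC : (G.induce C).Preconnected) :
    ∃ n, n ≤ 3 ∧ ∃ K : Fin n → Set V, Cp G M n K := by
  obtain ⟨L, h1, h2, h3, h4⟩ := exists_list (G := G) [A, B, C] (by
    intro X hX
    simp only [List.mem_cons, List.not_mem_nil, or_false] at hX
    rcases hX with rfl | rfl | rfl
    · exact hA
    · exact hB
    · exact hC)
  refine ⟨L.length, h1, L.get, fun t => h2 _ (List.get_mem _ _), ?_, ?_, ?_⟩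
  · intro s t hst
    rw [List.pairwise_iff_get] at h3
    rcases lt_or_gt_of_ne hst with h | h
    · exact (h3 s t h).1
    · exact (h3 t s h).1.symm
  · intro s t hst
    rw [List.pairwise_iff_get] at h3
    rcases lt_or_gt_of_ne hst with h | h
    · exact (h3 s t h).2
    · exact fun q => (h3 t s h).2 q.symm
  · have h5 : (⋃ X ∈ L, X) = ⋃ t : Fin L.length, L.get t := by
      ext v
      simp only [Set.mem_iUnion, exists_prop]
      constructor
      · rintro ⟨X, hX, hv⟩
        obtain ⟨t, ht⟩ := List.mem_iff_get.mp hX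
        exact ⟨t, by rw [ht]; exact hv⟩
      · rintro ⟨t, hv⟩
        exact ⟨_, List.get_mem _ _, hv⟩
    rw [← h5, h4, hM]
    ext v
    simp only [Set.mem_union, Set.mem_iUnion, List.mem_cons, List.not_mem_nil, or_false,
      exists_prop, exists_eq_or_imp, exists_eq_left]
    tauto

/-- edges across a cut of two connected-together sets -/
lemma cut_pieces {M N : Set V} {n m : ℕ} {K : Fin n → Set V} {L : Fin m → Set V}
    (hK : Cp G M n K) (hL : Cp G N m L) (hd : Disjoint M N)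
    (hc : (G.induce (M ∪ N)).Preconnected) (σ : Fin n → Prop) (τ : Fin m → Prop)
    (h1 : (∃ s, σ s) ∨ ∃ t, τ t) (h2 : (∃ s, ¬ σ s) ∨ ∃ t, ¬ τ t) :
    ∃ s t, Touch G (K s) (L t) ∧ ((σ s ∧ ¬ τ t) ∨ (¬ σ s ∧ τ t)) := by
  have hX : Touch G {v | (∃ s, σ s ∧ v ∈ K s) ∨ ∃ t, τ t ∧ v ∈ L t}
      {v | (∃ s, ¬ σ s ∧ v ∈ K s) ∨ ∃ t, ¬ τ t ∧ v ∈ L t} := by
    apply cut
    · have e : ({v | (∃ s, σ s ∧ v ∈ K s) ∨ ∃ t, τ t ∧ v ∈ L t} : Set V) ∪
          {v | (∃ s, ¬ σ s ∧ v ∈ K s) ∨ ∃ t, ¬ τ t ∧ v ∈ L t} = M ∪ N := by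
        ext v
        simp only [Set.mem_union, Set.mem_setOf_eq]
        constructor
        · rintro ((⟨s, -, hs⟩ | ⟨t, -, ht⟩) | (⟨s, -, hs⟩ | ⟨t, -, ht⟩))
          · exact Or.inl (hK.sub s hs)
          · exact Or.inr (hL.sub t ht)
          · exact Or.inl (hK.sub s hs)
          · exact Or.inr (hL.sub t ht)
        · rintro (hv | hv)
          · obtain ⟨s, hs⟩ := hK.mem hv
            by_cases hσ : σ s
            · exact Or.inl (Or.inl ⟨s, hσ, hs⟩)
            · exact Or.inr (Or.inl ⟨s, hσ, hs⟩)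
          · obtain ⟨t, ht⟩ := hL.mem hv
            by_cases hτ : τ t
            · exact Or.inl (Or.inr ⟨t, hτ, ht⟩)
            · exact Or.inr (Or.inr ⟨t, hτ, ht⟩)
      rw [e]
      exact hc
    · rcases h1 with ⟨s, hs⟩ | ⟨t, ht⟩
      · obtain ⟨v, hv⟩ := hK.ne s
        exact ⟨v, Or.inl ⟨s, hs, hv⟩⟩
      · obtain ⟨v, hv⟩ := hL.ne t
        exact ⟨v, Or.inr ⟨t, ht, hv⟩⟩
    · rcases h2 with ⟨s, hs⟩ | ⟨t, ht⟩
      · obtain ⟨v, hv⟩ := hK.ne s
        exact ⟨v, Or.inl ⟨s, hs, hv⟩⟩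
      · obtain ⟨v, hv⟩ := hL.ne t
        exact ⟨v, Or.inr ⟨t, ht, hv⟩⟩
    · rw [Set.disjoint_left]
      rintro v (⟨s, hs, hv⟩ | ⟨t, ht, hv⟩) (⟨s', hs', hv'⟩ | ⟨t', ht', hv'⟩)
      · exact hs' (hK.uniq hv hv' ▸ hs)
      · exact Set.disjoint_left.mp hd (hK.sub s hv) (hL.sub t' hv')
      · exact Set.disjoint_left.mp hd (hK.sub s' hv') (hL.sub t hv)
      · exact ht' (hL.uniq hv hv' ▸ ht)
  obtain ⟨x, hx, y, hy, hxy⟩ := hX
  rcases hx with ⟨s, hs, hv⟩ | ⟨t, ht, hv⟩ <;> rcases hy with ⟨s', hs', hv'⟩ | ⟨t', ht', hv'⟩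
  · exact absurd ⟨x, hv, y, hv', hxy⟩ (hK.nt s s' (fun e => hs' (e ▸ hs)))
  · exact ⟨s, t', ⟨x, hv, y, hv', hxy⟩, Or.inl ⟨hs, ht'⟩⟩
  · exact ⟨s', t, ⟨y, hv', x, hv, hxy.symm⟩, Or.inr ⟨hs', ht⟩⟩
  · exact absurd ⟨x, hv, y, hv', hxy⟩ (hL.nt t t' (fun e => ht' (e ▸ ht)))

/-- every piece of a pseudo-node touches every other pseudo-node -/
lemma piece_touch {M N : Set V} {n : ℕ} {K : Fin n → Set V} (hK : Cp G M n K)
    (hd : Disjoint M N) (hN : N.Nonempty) (hc : (G.induce (M ∪ N)).Preconnected) (t : Fin n) :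
    Touch G (K t) N := by
  have h1 : Touch G (K t) ((M \ K t) ∪ N) := by
    apply cut _ (hK.ne t) (hN.mono Set.subset_union_right)
    · rw [Set.disjoint_union_right]
      exact ⟨Set.disjoint_sdiff_right, hd.mono_left (hK.sub t)⟩
    · rw [← Set.union_assoc, Set.union_diff_cancel (hK.sub t)]
      exact hc
  rcases touch_union_right h1 with ⟨x, hx, y, hy, hxy⟩ | h
  · exfalso
    obtain ⟨s, hs⟩ := hK.mem hy.1
    exact hK.nt t s (fun e => hy.2 (e ▸ hs)) ⟨x, hx, y, hs, hxy⟩
  · exact h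

lemma conn_of_touch_all {N X : Set V} {m : ℕ} {L : Fin m → Set V} (hL : Cp G N m L)
    (hX : (G.induce X).Connected) (h : ∀ t, Touch G X (L t)) : (G.induce (N ∪ X)).Connected := by
  obtain ⟨u, hu⟩ := Connected.nonempty' hX
  apply SimpleGraph.induce_connected_of_patches u (Or.inr hu)
  intro v hv
  rcases hv with hv | hv
  · obtain ⟨t, ht⟩ := hL.mem hv
    refine ⟨X ∪ L t, ?_, Or.inl hu, Or.inr ht,
      (conn_union hX.preconnected (hL.conn t).preconnected (h t)).preconnected _ _⟩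
    exact Set.union_subset Set.subset_union_right ((hL.sub t).trans Set.subset_union_left)
  · exact ⟨X, Set.subset_union_right, hu, hv, hX.preconnected _ _⟩

lemma leaf {M N : Set V} {n m : ℕ} {K : Fin n → Set V} {L : Fin m → Set V}
    (hK : Cp G M n K) (hL : Cp G N m L) (hd : Disjoint M N)
    (hc : (G.induce (M ∪ N)).Preconnected) (h : Fin n) (y : Fin m)
    (hy : ∀ t, t ≠ y → ¬ Touch G (K h) (L t)) : (G.induce (N ∪ (M \ K h))).Connected := by
  classical
  obtain ⟨u, hu⟩ := hL.ne y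
  have huN : u ∈ N ∪ (M \ K h) := Or.inl (hL.sub y hu)
  by_contra hcon
  have hex : ∃ v, ∃ hv : v ∈ N ∪ (M \ K h),
      ¬ (G.induce (N ∪ (M \ K h))).Reachable ⟨u, huN⟩ ⟨v, hv⟩ := by
    by_contra hall
    push Not at hall
    apply hcon
    have : Nonempty ↑(N ∪ (M \ K h)) := ⟨⟨u, huN⟩⟩
    refine ⟨fun a b => ?_⟩
    exact (hall a a.2).symm.trans (hall b b.2)
  obtain ⟨v, hv, hvr⟩ := hex
  set U : Set V := {w | ∃ hw : w ∈ N ∪ (M \ K h),
    (G.induce (N ∪ (M \ K h))).Reachable ⟨u, huN⟩ ⟨w, hw⟩} with hU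
  have hT : Touch G (U ∪ K h) ((N ∪ (M \ K h)) \ U) := by
    apply cut
    · have e : (U ∪ K h) ∪ ((N ∪ (M \ K h)) \ U) = M ∪ N := by
        ext w
        simp only [Set.mem_union, Set.mem_diff]
        constructor
        · rintro ((hw | hw) | ⟨hw | hw, -⟩)
          · obtain ⟨hw, -⟩ := hw
            rcases hw with hw | hw
            · exact Or.inr hw
            · exact Or.inl hw.1
          · exact Or.inl (hK.sub h hw)
          · exact Or.inr hw
          · exact Or.inl hw.1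
        · rintro (hw | hw)
          · by_cases h1 : w ∈ K h
            · exact Or.inl (Or.inr h1)
            · by_cases h2 : w ∈ U
              · exact Or.inl (Or.inl h2)
              · exact Or.inr ⟨Or.inr ⟨hw, h1⟩, h2⟩
          · by_cases h2 : w ∈ U
            · exact Or.inl (Or.inl h2)
            · exact Or.inr ⟨Or.inl hw, h2⟩
      rw [e]
      exact hc
    · exact ⟨u, Or.inl ⟨huN, SimpleGraph.Reachable.refl _⟩⟩
    · exact ⟨v, hv, fun ⟨_, h2⟩ => hvr h2⟩
    · rw [Set.disjoint_left]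
      rintro w (hw | hw) ⟨hw', hw''⟩
      · exact hw'' hw
      · rcases hw' with hw' | hw'
        · exact Set.disjoint_left.mp hd (hK.sub h hw) hw'
        · exact hw'.2 hw
  obtain ⟨x, hx, z, ⟨hz, hzU⟩, hxz⟩ := hT
  rcases hx with ⟨hx, hxr⟩ | hx
  · apply hzU
    refine ⟨hz, hxr.trans (SimpleGraph.Adj.reachable ?_)⟩
    exact hxz
  · rcases hz with hz | hz
    · obtain ⟨t, ht⟩ := hL.mem hz
      have hty : t = y := by
        by_contra hty
        exact hy t hty ⟨x, hx, z, ht, hxz⟩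
      subst hty
      apply hzU
      refine ⟨Or.inl hz, ?_⟩
      have hr := (hL.conn t).preconnected ⟨u, hu⟩ ⟨z, ht⟩
      have hsub : L t ⊆ N ∪ (M \ K h) := (hL.sub t).trans Set.subset_union_left
      exact hr.map (SimpleGraph.induceHomOfLE G hsub).toHom
    · obtain ⟨s, hs⟩ := hK.mem hz.1
      exact hK.nt h s (fun e => hz.2 (e ▸ hs)) ⟨x, hx, z, hs, hxz⟩

end Pool.Agent.H738R3
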