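import Pool.Agent.H738R3.Pairs

set_option autoImplicit false

namespace Pool.Agent.H738R3

open Pool.Agent.Results.MP_a374b6_co.TwoComponents

variable {V : Type*} {G : SimpleGraph V}

lemma rel3 (r : Fin 3 → Fin 3 → Prop)
    (hcut : ∀ σ τ : Fin 3 → Prop, ((∃ s, σ s) ∨ ∃ t, τ t) → ((∃ s, ¬ σ s) ∨ ∃ t, ¬ τ t) →
      ∃ s t, r s t ∧ ((σ s ∧ ¬ τ t) ∨ (¬ σ s ∧ τ t)))
    (hrow : ∀ s, ∃ t, ¬ r s t) (hcol : ∀ t, ∃ s, ¬ r s t) :
    (∃ a x, (∀ t, t ≠ x → r a t) ∧ ∀ s, s ≠ a → r s x) ∧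
      ∀ a x, ∃ s, s ≠ a ∧ ∃ t, t ≠ x ∧ r s t := by
  classical
  have H := rel3_bool (decide (r 0 0)) (decide (r 0 1)) (decide (r 0 2))
    (decide (r 1 0)) (decide (r 1 1)) (decide (r 1 2))
    (decide (r 2 0)) (decide (r 2 1)) (decide (r 2 2)) (by
      intro s0 s1 s2 t0 t1 t2 h1 h2
      obtain ⟨s, t, hr, hst⟩ := hcut (fun s => (![s0, s1, s2] : Fin 3 → Bool) s = true)
        (fun t => (![t0, t1, t2] : Fin 3 → Bool) t = true) (by
          by_contra hcon
          push Not at hcon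
          obtain ⟨h3, h4⟩ := hcon
          have a0 := h3 0
          have a1 := h3 1
          have a2 := h3 2
          have b0 := h4 0
          have b1 := h4 1
          have b2 := h4 2
          simp at a0 a1 a2 b0 b1 b2
          simp [a0, a1, a2, b0, b1, b2] at h1) (by
          by_contra hcon
          push Not at hcon
          obtain ⟨h3, h4⟩ := hcon
          have a0 := h3 0
          have a1 := h3 1
          have a2 := h3 2
          have b0 := h4 0
          have b1 := h4 1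
          have b2 := h4 2
          simp at a0 a1 a2 b0 b1 b2
          simp [a0, a1, a2, b0, b1, b2] at h2)
      have hne : (![s0, s1, s2] : Fin 3 → Bool) s ≠ (![t0, t1, t2] : Fin 3 → Bool) t := by
        rcases hst with h | h
        · intro e
          exact h.2 (e ▸ h.1)
        · intro e
          exact h.1 (e ▸ h.2)
      clear hst h1 h2
      fin_cases s <;> fin_cases t <;> simp at hne hr ⊢ <;> simp [hne, hr])
    (by
      obtain ⟨t, ht⟩ := hrow 0
      fin_cases t <;> simp at ht ⊢ <;> simp [ht]) (by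
      obtain ⟨t, ht⟩ := hrow 1
      fin_cases t <;> simp at ht ⊢ <;> simp [ht]) (by
      obtain ⟨t, ht⟩ := hrow 2
      fin_cases t <;> simp at ht ⊢ <;> simp [ht]) (by
      obtain ⟨t, ht⟩ := hcol 0
      fin_cases t <;> simp at ht ⊢ <;> simp [ht]) (by
      obtain ⟨t, ht⟩ := hcol 1
      fin_cases t <;> simp at ht ⊢ <;> simp [ht]) (by
      obtain ⟨t, ht⟩ := hcol 2
      fin_cases t <;> simp at ht ⊢ <;> simp [ht])
  obtain ⟨H1, H2⟩ := H
  simp only [Bool.or_eq_true, Bool.and_eq_true, decide_eq_true_eq] at H1 H2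
  constructor
  · have key : ∀ a x : Fin 3, (∀ t, t ≠ x → r a t) → (∀ s, s ≠ a → r s x) →
        ∃ a x, (∀ t, t ≠ x → r a t) ∧ ∀ s, s ≠ a → r s x := fun a x h1 h2 => ⟨a, x, h1, h2⟩
    clear H2 hcut hrow hcol
    rcases H1 with (((((((H | H) | H) | H) | H) | H) | H) | H) | H
    · refine key 0 0 ?_ ?_ <;> intro t ht <;> fin_cases t <;> simp_all
    · refine key 0 1 ?_ ?_ <;> intro t ht <;> fin_cases t <;> simp_all
    · refine key 0 2 ?_ ?_ <;> intro t ht <;> fin_cases t <;> simp_all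
    · refine key 1 0 ?_ ?_ <;> intro t ht <;> fin_cases t <;> simp_all
    · refine key 1 1 ?_ ?_ <;> intro t ht <;> fin_cases t <;> simp_all
    · refine key 1 2 ?_ ?_ <;> intro t ht <;> fin_cases t <;> simp_all
    · refine key 2 0 ?_ ?_ <;> intro t ht <;> fin_cases t <;> simp_all
    · refine key 2 1 ?_ ?_ <;> intro t ht <;> fin_cases t <;> simp_all
    · refine key 2 2 ?_ ?_ <;> intro t ht <;> fin_cases t <;> simp_all
  · clear H1 hcut hrow hcol
    obtain ⟨⟨⟨⟨⟨⟨⟨⟨H00, H01⟩, H02⟩, H10⟩, H11⟩, H12⟩, H20⟩, H21⟩, H22⟩ := H2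
    have key : ∀ (a x s t : Fin 3), s ≠ a → t ≠ x → r s t → ∃ s, s ≠ a ∧ ∃ t, t ≠ x ∧ r s t :=
      fun a x s t h1 h2 h3 => ⟨s, h1, t, h2, h3⟩
    intro a x
    fin_cases a <;> fin_cases x <;> simp only [Fin.zero_eta, Fin.mk_one, Fin.reduceFinMk]
    · rcases H00 with ((h | h) | h) | h <;> exact key _ _ _ _ (by decide) (by decide) h
    · rcases H01 with ((h | h) | h) | h <;> exact key _ _ _ _ (by decide) (by decide) h
    · rcases H02 with ((h | h) | h) | h <;> exact key _ _ _ _ (by decide) (by decide) h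
    · rcases H10 with ((h | h) | h) | h <;> exact key _ _ _ _ (by decide) (by decide) h
    · rcases H11 with ((h | h) | h) | h <;> exact key _ _ _ _ (by decide) (by decide) h
    · rcases H12 with ((h | h) | h) | h <;> exact key _ _ _ _ (by decide) (by decide) h
    · rcases H20 with ((h | h) | h) | h <;> exact key _ _ _ _ (by decide) (by decide) h
    · rcases H21 with ((h | h) | h) | h <;> exact key _ _ _ _ (by decide) (by decide) h
    · rcases H22 with ((h | h) | h) | h <;> exact key _ _ _ _ (by decide) (by decide) h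

lemma pair_rel {M N : Set V} {n m : ℕ} {K : Fin n → Set V} {L : Fin m → Set V}
    (hK : Cp G M n K) (hL : Cp G N m L) (hd : Disjoint M N)
    (hc : (G.induce (M ∪ N)).Preconnected) (hn : n = 3) (hm : m = 3)
    (hrow : ∀ s, ∃ t, ¬ Touch G (K s) (L t)) (hcol : ∀ t, ∃ s, ¬ Touch G (L t) (K s)) :
    (∃ a x, (∀ t, t ≠ x → Touch G (K a) (L t)) ∧ ∀ s, s ≠ a → Touch G (L x) (K s)) ∧
      ∀ a x, ∃ s, s ≠ a ∧ ∃ t, t ≠ x ∧ Touch G (K s) (L t) := by
  subst hn
  subst hm
  obtain ⟨⟨a, x, h1, h2⟩, h3⟩ := rel3 (fun s t => Touch G (K s) (L t))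
    (fun σ τ h1 h2 => cut_pieces hK hL hd hc σ τ h1 h2) hrow (by
      intro t
      obtain ⟨s, hs⟩ := hcol t
      exact ⟨s, fun h => hs h.symm⟩)
  exact ⟨⟨a, x, h1, fun s hs => (h2 s hs).symm⟩, h3⟩

end Pool.Agent.H738R3
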