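import Pool.Agent.H738R3.Lists

set_option autoImplicit false

namespace Pool.Agent.H738R3

open Pool.Agent.Results.MP_a374b6_co.TwoComponents

variable {V : Type*} {G : SimpleGraph V}

/-- in a connected bipartite quotient with two points on one side, some point sees both -/
lemma two_full {M N : Set V} {n m : ℕ} {K : Fin n → Set V} {L : Fin m → Set V}
    (hK : Cp G M n K) (hL : Cp G N m L) (hd : Disjoint M N)
    (hc : (G.induce (M ∪ N)).Preconnected) (hm : m = 2) :
    ∃ h, ∀ t, Touch G (K h) (L t) := by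
  subst hm
  obtain ⟨s, t, h1, h2⟩ := cut_pieces hK hL hd hc (fun s => Touch G (K s) (L 0))
    (fun t => t = 0) (Or.inr ⟨0, rfl⟩) (Or.inr ⟨1, by decide⟩)
  rcases h2 with ⟨h2, h3⟩ | ⟨h2, h3⟩
  · refine ⟨s, fun t' => ?_⟩
    have ht : t = 1 := by
      fin_cases t
      · exact absurd rfl h3
      · rfl
    subst ht
    fin_cases t'
    · exact h2
    · exact h1
  · exact absurd (h3 ▸ h1) h2

section term

variable {ι : Type*} [DecidableEq ι] {M : ι → Set V}

lemma terminal3 (hne : ∀ i, (M i).Nonempty) (hdisj : ∀ i j, i ≠ j → Disjoint (M i) (M j))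
    (hconn : ∀ i j, i ≠ j → (G.induce (M i ∪ M j)).Connected) (S : Finset ι)
    (h3 : ∀ i ∈ S, ∃ n, n ≤ 3 ∧ ∃ K : Fin n → Set V, Cp G (M i) n K)
    (hno : ∀ i ∈ S, ∀ j ∈ S, ∀ k ∈ S, i ≠ j → i ≠ k → j ≠ k → ∀ A B : Set V, Disjoint A B →
      A ∪ B ⊆ M k → (G.induce (M i ∪ A)).Connected → ¬ (G.induce (M j ∪ B)).Connected) :
    ∃ L : List (Set V), S.card - S.card / 3 ≤ L.length ∧
      L.Pairwise (fun X Y => Disjoint X Y ∧ Touch G X Y) ∧
      ∀ X ∈ L, X ⊆ (⋃ i ∈ S, M i) ∧ (G.induce X).Connected ∧ ∀ j, j ∉ S → Touch G X (M j) := by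
  classical
  have hex : ∀ i, ∃ n, ∃ K : Fin n → Set V, i ∈ S → n ≤ 3 ∧ Cp G (M i) n K := by
    intro i
    by_cases hi : i ∈ S
    · obtain ⟨n, hn, K, hK⟩ := h3 i hi
      exact ⟨n, K, fun _ => ⟨hn, hK⟩⟩
    · exact ⟨0, fun t => t.elim0, fun h => absurd h hi⟩
  choose c K hK using hex
  have hpos : ∀ i ∈ S, Nonempty (Fin (c i)) := by
    intro i hi
    obtain ⟨v, hv⟩ := hne i
    obtain ⟨t, -⟩ := (hK i hi).2.mem hv
    exact ⟨t⟩
  have ptouch : ∀ i ∈ S, ∀ t : Fin (c i), ∀ j, j ≠ i → Touch G (K i t) (M j) :=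
    fun i hi t j hj => piece_touch (hK i hi).2 (hdisj i j hj.symm) (hne j)
      (hconn i j hj.symm).preconnected t
  have hMM : ∀ k l, l ≠ k → Touch G (M k) (M l) := fun k l hkl =>
    cut (hconn k l hkl.symm).preconnected (hne k) (hne l) (hdisj k l hkl.symm)
  have hsub : ∀ x ∈ S, M x ⊆ ⋃ i ∈ S, M i := fun x hx =>
    Set.subset_biUnion_of_mem (u := M) (Finset.mem_coe.mpr hx)
  by_cases hc0 : S.card = 0
  · exact ⟨[], by simp [hc0], List.Pairwise.nil, by simp⟩
  by_cases hc1 : S.card = 1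
  · obtain ⟨k, rfl⟩ := Finset.card_eq_one.mp hc1
    have hk : k ∈ ({k} : Finset ι) := Finset.mem_singleton_self k
    obtain ⟨t⟩ := hpos k hk
    refine ⟨[K k t], by simp, List.pairwise_singleton _ _, ?_⟩
    intro X hX
    rw [List.mem_singleton] at hX
    subst hX
    refine ⟨((hK k hk).2.sub t).trans (hsub k hk), (hK k hk).2.conn t, fun j hj => ?_⟩
    exact ptouch k hk t j (fun e => hj (e ▸ hk))
  by_cases hc2 : S.card = 2
  · obtain ⟨k, l, hkl, rfl⟩ := Finset.card_eq_two.mp hc2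
    have hk : k ∈ ({k, l} : Finset ι) := by simp
    have hl : l ∈ ({k, l} : Finset ι) := by simp
    obtain ⟨x, hx, y, hy, hxy⟩ := hMM k l hkl.symm
    obtain ⟨s, hs⟩ := (hK k hk).2.mem hx
    obtain ⟨t, ht⟩ := (hK l hl).2.mem hy
    refine ⟨[K k s, K l t], by simp [hc2], ?_, ?_⟩
    · rw [List.pairwise_pair]
      exact ⟨(hdisj k l hkl).mono ((hK k hk).2.sub s) ((hK l hl).2.sub t), x, hs, y, ht, hxy⟩
    · intro X hX
      simp only [List.mem_cons, List.not_mem_nil, or_false] at hX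
      rcases hX with rfl | rfl
      · refine ⟨((hK k hk).2.sub s).trans (hsub k hk), (hK k hk).2.conn s, fun j hj => ?_⟩
        exact ptouch k hk s j (fun e => hj (e ▸ hk))
      · refine ⟨((hK l hl).2.sub t).trans (hsub l hl), (hK l hl).2.conn t, fun j hj => ?_⟩
        exact ptouch l hl t j (fun e => hj (e ▸ hl))
  have hS3 : 3 ≤ S.card := by omega
  set C := S.filter (fun i => (G.induce (M i)).Connected) with hC
  set D := S.filter (fun i => ¬ (G.induce (M i)).Connected) with hD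
  have hCD : C.card + D.card = S.card :=
    Finset.card_filter_add_card_filter_not (fun i => (G.induce (M i)).Connected)
  have hDS : ∀ i ∈ D, i ∈ S := fun i hi => (Finset.mem_filter.mp hi).1
  -- disconnected nodes have at least two pieces
  have htwo : ∀ i ∈ D, ∀ y : Fin (c i), ∃ t, t ≠ y := by
    intro i hi y
    by_contra hcon
    push Not at hcon
    have hi' := Finset.mem_filter.mp hi
    apply hi'.2
    have e : M i = K i y := by
      apply Set.Subset.antisymm _ ((hK i hi'.1).2.sub y)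
      intro v hv
      obtain ⟨t, ht⟩ := (hK i hi'.1).2.mem hv
      rw [hcon t] at ht
      exact ht
    have := (hK i hi'.1).2.conn y
    rw [← e] at this
    exact this
  set HubP : (k : ι) → Fin (c k) → Prop := fun k h => ∀ j ∈ D, j ≠ k →
    ∀ y : Fin (c j), ∃ t, t ≠ y ∧ Touch G (K k h) (K j t) with hHubP
  have full_hub : ∀ k ∈ D, ∀ i ∈ D, i ≠ k → ∀ h, (∀ t, Touch G (K k h) (K i t)) → HubP k h := by
    intro k hk i hi hik h hfull j hj hjk y
    by_cases hij : j = i
    · subst hij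
      obtain ⟨t, ht⟩ := htwo j hj y
      exact ⟨t, ht, hfull t⟩
    by_contra hcon
    push Not at hcon
    have hB := leaf (hK k (hDS k hk)).2 (hK j (hDS j hj)).2 (hdisj k j hjk.symm)
      (hconn k j hjk.symm).preconnected h y hcon
    have hA := conn_of_touch_all (hK i (hDS i hi)).2 ((hK k (hDS k hk)).2.conn h) hfull
    refine hno i (hDS i hi) j (hDS j hj) k (hDS k hk) (Ne.symm hij) hik hjk (K k h) (M k \ K k h)
      Set.disjoint_sdiff_right ?_ hA hB
    exact Set.union_subset ((hK k (hDS k hk)).2.sub h) Set.diff_subset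
  have dich : ∀ k ∈ D, (¬ ∃ h, HubP k h) → ∀ i ∈ D, i ≠ k → c i = 3 ∧
      ∀ h : Fin (c k), ∃ t : Fin (c i), ¬ Touch G (K k h) (K i t) := by
    intro k hk hnh i hi hik
    have hnf : ∀ h : Fin (c k), ∃ t : Fin (c i), ¬ Touch G (K k h) (K i t) := by
      intro h
      by_contra hcon
      push Not at hcon
      exact hnh ⟨h, full_hub k hk i hi hik h hcon⟩
    refine ⟨?_, hnf⟩
    have hle := (hK i (hDS i hi)).1
    obtain ⟨y⟩ := hpos i (hDS i hi)
    obtain ⟨t, ht⟩ := htwo i hi y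
    have h2 : 2 ≤ c i := by
      rw [ne_eq, Fin.ext_iff] at ht
      have := t.isLt
      have := y.isLt
      omega
    by_contra hne3
    have heq : c i = 2 := by omega
    obtain ⟨h, hh⟩ := two_full (hK k (hDS k hk)).2 (hK i (hDS i hi)).2 (hdisj k i hik.symm)
      (hconn k i hik.symm).preconnected heq
    obtain ⟨t, ht⟩ := hnf h
    exact ht (hh t)
  set H := D.filter (fun k => ∃ h, HubP k h) with hH
  set T := D.filter (fun k => ¬ ∃ h, HubP k h) with hT
  have hHT : H.card + T.card = D.card :=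
    Finset.card_filter_add_card_filter_not (fun k => ∃ h, HubP k h)
  have hHD : ∀ i ∈ H, i ∈ D := fun i hi => (Finset.mem_filter.mp hi).1
  have hTD : ∀ i ∈ T, i ∈ D := fun i hi => (Finset.mem_filter.mp hi).1
  have hPex : ∀ k, ∃ P : Set V, k ∈ H → ∃ h, P = K k h ∧ HubP k h := by
    intro k
    by_cases hk : k ∈ H
    · obtain ⟨h, hh⟩ := (Finset.mem_filter.mp hk).2
      exact ⟨K k h, fun _ => ⟨h, rfl, hh⟩⟩
    · exact ⟨∅, fun h => absurd h hk⟩
  choose P hP using hPex
  obtain ⟨L1, l1, p1, q1⟩ := hub_list (c := c) (K := K) hdisj hconn P H.card H rfl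
    (fun i hi => hK i (hDS i (hHD i hi)))
    (fun k hk => by
      obtain ⟨h, hh, hh'⟩ := hP k hk
      exact ⟨h, hh, fun j hj => hh' j (hHD j hj)⟩)
  obtain ⟨L2, l2, p2, q2⟩ := tlist (c := c) (K := K) hdisj hconn T.card T rfl
    (fun i hi => (hK i (hDS i (hTD i hi))).2)
    (fun k hk j hj hjk => dich k (hTD k hk) (Finset.mem_filter.mp hk).2 j (hTD j hj) hjk)
  have r1 : ∀ X ∈ L1, ∃ k ∈ H, ∀ j, j ≠ k → Touch G X (M j) := by
    intro X hX
    obtain ⟨-, -, k, hk, hPX⟩ := q1 X hX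
    obtain ⟨h, hh, -⟩ := hP k hk
    refine ⟨k, hk, fun j hj => ?_⟩
    rw [hh] at hPX
    exact (ptouch k (hDS k (hHD k hk)) h j hj).mono hPX (Set.Subset.refl _)
  have r2 : ∀ X ∈ L2, ∃ k ∈ T, ∀ j, j ≠ k → Touch G X (M j) := by
    intro X hX
    obtain ⟨-, -, k, hk, y, t, hty, hPX⟩ := q2 X hX
    refine ⟨k, hk, fun j hj => ?_⟩
    exact (ptouch k (hDS k (hTD k hk)) t j hj).mono
      (((hK k (hDS k (hTD k hk))).2.sub_diff hty).trans hPX) (Set.Subset.refl _)
  have hCm : ∀ i, i ∈ C ↔ i ∈ S ∧ (G.induce (M i)).Connected := fun i => Finset.mem_filter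
  have hDm : ∀ i, i ∈ D ↔ i ∈ S ∧ ¬ (G.induce (M i)).Connected := fun i => Finset.mem_filter
  have hHnT : ∀ x ∈ H, x ∉ T := fun x hx hx' =>
    (Finset.mem_filter.mp hx').2 (Finset.mem_filter.mp hx).2
  have hnCH : ∀ x ∈ H, x ∉ C := fun x hx hx' => ((hDm x).mp (hHD x hx)).2 ((hCm x).mp hx').2
  have hnCT : ∀ x ∈ T, x ∉ C := fun x hx hx' => ((hDm x).mp (hTD x hx)).2 ((hCm x).mp hx').2
  refine ⟨C.toList.map M ++ (L1 ++ L2), ?_, ?_, ?_⟩
  · simp only [List.length_append, List.length_map, Finset.length_toList]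
    omega
  · rw [List.pairwise_append, List.pairwise_append]
    refine ⟨?_, ⟨p1, p2, ?_⟩, ?_⟩
    · rw [List.pairwise_map]
      refine List.Pairwise.imp_of_mem ?_ C.nodup_toList
      intro a b ha hb hab
      exact ⟨hdisj a b hab, hMM a b (Ne.symm hab)⟩
    · intro X hX Y hY
      obtain ⟨hX1, hX2, k, hk, hPX⟩ := q1 X hX
      obtain ⟨hY1, hY2, l, hl, y, t, hty, hPY⟩ := q2 Y hY
      refine ⟨disj_two hdisj hHnT hX1 hY1, ?_⟩
      obtain ⟨h, hh, hub⟩ := hP k hk
      rw [hh] at hPX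
      obtain ⟨t', ht', htt⟩ := hub l (hTD l hl) (fun e => hHnT k hk (e ▸ hl)) y
      exact htt.mono hPX (((hK l (hDS l (hTD l hl))).2.sub_diff ht').trans hPY)
    · intro X hX Y hY
      simp only [List.mem_map, Finset.mem_toList] at hX
      obtain ⟨x, hx, rfl⟩ := hX
      rcases List.mem_append.mp hY with hY | hY
      · refine ⟨(disj_out hdisj (fun h => hnCH x h hx)).mono_right (q1 Y hY).1, ?_⟩
        obtain ⟨k, hk, hkj⟩ := r1 Y hY
        exact (hkj x (fun e => hnCH k hk (e ▸ hx))).symm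
      · refine ⟨(disj_out hdisj (fun h => hnCT x h hx)).mono_right (q2 Y hY).1, ?_⟩
        obtain ⟨k, hk, hkj⟩ := r2 Y hY
        exact (hkj x (fun e => hnCT k hk (e ▸ hx))).symm
  · intro X hX
    rcases List.mem_append.mp hX with hX | hX
    · simp only [List.mem_map, Finset.mem_toList] at hX
      obtain ⟨x, hx, rfl⟩ := hX
      have hx' := (hCm x).mp hx
      exact ⟨hsub x hx'.1, hx'.2, fun j hj => hMM x j (fun e => hj (e ▸ hx'.1))⟩
    · rcases List.mem_append.mp hX with hX | hX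
      · obtain ⟨k, hk, hkj⟩ := r1 X hX
        refine ⟨(q1 X hX).1.trans ?_, (q1 X hX).2.1, fun j hj => hkj j
          (fun e => hj (e ▸ hDS k (hHD k hk)))⟩
        exact Set.biUnion_subset_biUnion_left (fun i hi => hDS i (hHD i hi))
      · obtain ⟨k, hk, hkj⟩ := r2 X hX
        refine ⟨(q2 X hX).1.trans ?_, (q2 X hX).2.1, fun j hj => hkj j
          (fun e => hj (e ▸ hDS k (hTD k hk)))⟩
        exact Set.biUnion_subset_biUnion_left (fun i hi => hDS i (hTD i hi))

end term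

end Pool.Agent.H738R3
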